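import Pool.Agent.Work.MP_2e1090_co.Rigid

set_option autoImplicit false

namespace Pool.Agent.Work.MP_2e1090_co

lemma wval (B : Finset (Fin 9)) (z : ℤ) (h : WW B = z) : w B = (z : ℝ) := by
  rw [w, h]

/-- the subdivision of `w` is not trivial -/
lemma nontriv : ¬ ∃ c : Fin 9 → ℝ, ∀ B : Finset (Fin 9), B.card = 3 →
    ∀ B' : Finset (Fin 9), B'.card = 3 → w B - ∑ i ∈ B, c i ≤ w B' - ∑ i ∈ B', c i := by
  rintro ⟨c, hc⟩
  have h1 := hc {0, 1, 3} (by decide) {0, 1, 2} (by decide)
  have h2 := hc {0, 2, 8} (by decide) {0, 3, 8} (by decide)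
  rw [sum3 _ _ _ _ (by decide) (by decide) (by decide),
    sum3 _ _ _ _ (by decide) (by decide) (by decide)] at h1 h2
  rw [wval {0, 1, 3} 0 (by decide +kernel), wval {0, 1, 2} 0 (by decide +kernel)] at h1
  rw [wval {0, 2, 8} 2 (by decide +kernel), wval {0, 3, 8} 0 (by decide +kernel)] at h2
  push_cast at h1 h2
  linarith

lemma plucker (S : Finset (Fin 9)) (i j k l : Fin 9) (hS : S.card + 2 = 3)
    (hi : i ∉ S) (hj : j ∉ S) (hk : k ∉ S) (hl : l ∉ S)
    (hij : i ≠ j) (hik : i ≠ k) (hil : i ≠ l) (hjk : j ≠ k) (hjl : j ≠ l) (hkl : k ≠ l) :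
    ((w (insert i (insert j S)) + w (insert k (insert l S))
        = w (insert i (insert k S)) + w (insert j (insert l S)) ∧
      w (insert i (insert j S)) + w (insert k (insert l S))
        ≤ w (insert i (insert l S)) + w (insert j (insert k S))) ∨
     (w (insert i (insert j S)) + w (insert k (insert l S))
        = w (insert i (insert l S)) + w (insert j (insert k S)) ∧
      w (insert i (insert j S)) + w (insert k (insert l S))
        ≤ w (insert i (insert k S)) + w (insert j (insert l S))) ∨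
     (w (insert i (insert k S)) + w (insert j (insert l S))
        = w (insert i (insert l S)) + w (insert j (insert k S)) ∧
      w (insert i (insert k S)) + w (insert j (insert l S))
        ≤ w (insert i (insert j S)) + w (insert k (insert l S)))) := by
  have hS1 : S.card = 1 := by omega
  obtain ⟨s, rfl⟩ := Finset.card_eq_one.mp hS1
  rw [Finset.mem_singleton] at hi hj hk hl
  have := plucker_int s i j k l ⟨hi, hj, hk, hl, hij, hik, hil, hjk, hjl, hkl⟩
  rw [← WW_eq_GG i j s hij hi hj, ← WW_eq_GG k l s hkl hk hl, ← WW_eq_GG i k s hik hi hk,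
    ← WW_eq_GG j l s hjl hj hl, ← WW_eq_GG i l s hil hi hl, ← WW_eq_GG j k s hjk hj hk] at this
  unfold Rel3 at this
  unfold w
  exact_mod_cast this

/-- corank function -/
noncomputable def rho (M : Matroid (Fin 9)) (B : Finset (Fin 9)) : ℝ :=
  (3 : ℝ) - ((M.eRk (B : Set (Fin 9))).toNat : ℝ)

lemma rank_step (M : Matroid (Fin 9)) (a b j : Fin 9) :
    ∃ g : ℕ, g ≤ 1 ∧ (M.eRk (({a, b, j} : Finset (Fin 9)) : Set (Fin 9))).toNat =
      (M.eRk ({a, b} : Set (Fin 9))).toNat + g := by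
  have hset : (({a, b, j} : Finset (Fin 9)) : Set (Fin 9)) = insert j ({a, b} : Set (Fin 9)) := by
    ext x; simp only [Finset.coe_insert, Finset.coe_singleton, Set.mem_insert_iff,
      Set.mem_singleton_iff]; tauto
  rw [hset]
  have h1 : M.eRk (insert j ({a, b} : Set (Fin 9))) ≤ M.eRk ({a, b} : Set (Fin 9)) + 1 :=
    M.eRk_insert_le_add_one j _
  have h2 : M.eRk ({a, b} : Set (Fin 9)) ≤ M.eRk (insert j ({a, b} : Set (Fin 9))) :=
    M.eRk_mono (Set.subset_insert _ _)
  have hfin : ∀ X : Set (Fin 9), M.eRk X ≠ ⊤ := by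
    intro X
    have := M.eRk_le_encard X
    have h3 : X.encard ≠ ⊤ := Set.encard_ne_top_iff.mpr (Set.toFinite X)
    intro h4
    rw [h4] at this
    exact h3 (top_le_iff.mp this)
  obtain ⟨p, hp⟩ := ENat.ne_top_iff_exists.mp (hfin ({a, b} : Set (Fin 9)))
  obtain ⟨q, hq⟩ := ENat.ne_top_iff_exists.mp (hfin (insert j ({a, b} : Set (Fin 9))))
  rw [← hp, ← hq] at h1 h2 ⊢
  have h1' : q ≤ p + 1 := by exact_mod_cast h1
  have h2' : p ≤ q := by exact_mod_cast h2
  refine ⟨q - p, by omega, ?_⟩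
  simp only [ENat.toNat_natCast]
  omega

lemma not_corank (M : Matroid (Fin 9))
    (h1 : ∀ c : Fin 9 → ℝ, ∃ c' : Fin 9 → ℝ, cell w c = cell (rho M) c')
    (h2 : ∀ c : Fin 9 → ℝ, ∃ c' : Fin 9 → ℝ, cell (rho M) c = cell w c') : False := by
  obtain ⟨lam, hlam, a, ha⟩ := rigid (rho M) (fun c => by
    obtain ⟨c', hc'⟩ := h1 c
    exact ⟨c', hc'.subset⟩)
  rcases hlam.eq_or_lt with h0 | hpos
  · -- trivial case
    obtain ⟨c', hc'⟩ := h2 a
    apply nontriv
    refine ⟨c', fun B hB B' hB' => ?_⟩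
    have hmem : B ∈ cell (rho M) a := by
      refine ⟨hB, fun B'' hB'' => ?_⟩
      rw [ha B hB, ha B'' hB'', ← h0]
      simp
    rw [hc'] at hmem
    exact hmem.2 B' hB'
  · -- integrality
    have E : ∀ x y j : Fin 9, x ≠ y → x ≠ j → y ≠ j →
        (3 : ℝ) - ((M.eRk (({x, y, j} : Finset (Fin 9)) : Set (Fin 9))).toNat : ℝ) =
          lam * w {x, y, j} + (a x + a y + a j) := by
      intro x y j hxy hxj hyj
      have hcard : ({x, y, j} : Finset (Fin 9)).card = 3 := by
        rw [Finset.card_eq_three]; exact ⟨x, y, j, hxy, hxj, hyj, rfl⟩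
      have := ha {x, y, j} hcard
      rw [sum3 _ _ _ _ hxy hxj hyj] at this
      exact this
    -- points 3, 4, 5, 8 against the pairs {1,2}, {0,2}, {0,1}
    obtain ⟨g03, b03, r03⟩ := rank_step M 1 2 3
    obtain ⟨g13, b13, r13⟩ := rank_step M 0 2 3
    obtain ⟨g23, b23, r23⟩ := rank_step M 0 1 3
    obtain ⟨g04, b04, r04⟩ := rank_step M 1 2 4
    obtain ⟨g14, b14, r14⟩ := rank_step M 0 2 4
    obtain ⟨g05, b05, r05⟩ := rank_step M 1 2 5
    obtain ⟨g15, b15, r15⟩ := rank_step M 0 2 5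
    obtain ⟨g25, b25, r25⟩ := rank_step M 0 1 5
    obtain ⟨g18, b18, r18⟩ := rank_step M 0 2 8
    obtain ⟨g28, b28, r28⟩ := rank_step M 0 1 8
    have e03 := E 1 2 3 (by decide) (by decide) (by decide)
    have e13 := E 0 2 3 (by decide) (by decide) (by decide)
    have e23 := E 0 1 3 (by decide) (by decide) (by decide)
    have e04 := E 1 2 4 (by decide) (by decide) (by decide)
    have e14 := E 0 2 4 (by decide) (by decide) (by decide)
    have e05 := E 1 2 5 (by decide) (by decide) (by decide)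
    have e15 := E 0 2 5 (by decide) (by decide) (by decide)
    have e25 := E 0 1 5 (by decide) (by decide) (by decide)
    have e18 := E 0 2 8 (by decide) (by decide) (by decide)
    have e28 := E 0 1 8 (by decide) (by decide) (by decide)
    rw [r03, wval {1, 2, 3} 0 (by decide +kernel)] at e03
    rw [r13, wval {0, 2, 3} 0 (by decide +kernel)] at e13
    rw [r23, wval {0, 1, 3} 0 (by decide +kernel)] at e23
    rw [r04, wval {1, 2, 4} 1 (by decide +kernel)] at e04
    rw [r14, wval {0, 2, 4} 0 (by decide +kernel)] at e14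
    rw [r05, wval {1, 2, 5} 2 (by decide +kernel)] at e05
    rw [r15, wval {0, 2, 5} 0 (by decide +kernel)] at e15
    rw [r25, wval {0, 1, 5} 0 (by decide +kernel)] at e25
    rw [r18, wval {0, 2, 8} 2 (by decide +kernel)] at e18
    rw [r28, wval {0, 1, 8} 0 (by decide +kernel)] at e28
    push_cast at e03 e13 e23 e04 e14 e05 e15 e25 e18 e28
    have q1 : lam = ((g03 : ℝ) - g13) - (g04 - g14) := by linarith
    have q2 : 2 * lam = ((g03 : ℝ) - g13) - (g05 - g15) := by linarith
    have q3 : 2 * lam = ((g03 : ℝ) - g23) - (g05 - g25) := by linarith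
    have q4 : 2 * lam = ((g15 : ℝ) - g25) - (g18 - g28) := by linarith
    have p2 : (2 : ℤ) * (((g03 : ℤ) - g13) - (g04 - g14)) = ((g03 : ℤ) - g13) - (g05 - g15) := by
      rw [q1] at q2; exact_mod_cast q2
    have p3 : (2 : ℤ) * (((g03 : ℤ) - g13) - (g04 - g14)) = ((g03 : ℤ) - g23) - (g05 - g25) := by
      rw [q1] at q3; exact_mod_cast q3
    have p4 : (2 : ℤ) * (((g03 : ℤ) - g13) - (g04 - g14)) = ((g15 : ℤ) - g25) - (g18 - g28) := by
      rw [q1] at q4; exact_mod_cast q4
    have p1 : (0 : ℤ) < (((g03 : ℤ) - g13) - (g04 - g14)) := by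
      rw [q1] at hpos; exact_mod_cast hpos
    omega

end Pool.Agent.Work.MP_2e1090_co
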