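import Mathlib

set_option autoImplicit false

namespace Pool.Agent.Work.MP_2e1090_co

/-- slopes of the six affine functions -/
def cc : Fin 6 → Fin 9 → ℤ :=
  ![![0,0,0,0,0,0,0,0,0],
    ![0,0,1,0,0,0,1,1,1],
    ![0,1,1,0,1,1,1,1,1],
    ![0,1,2,0,1,1,1,2,2],
    ![0,2,2,0,1,2,1,2,2],
    ![0,0,2,0,0,0,1,1,2]]

/-- constants of the six affine functions -/
def mm : Fin 6 → ℤ := ![0,-1,-2,-3,-4,-2]

def LL (k : Fin 6) (B : Finset (Fin 9)) : ℤ := mm k + ∑ i ∈ B, cc k i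

def mx (f : Fin 6 → ℤ) : ℤ := max (f 0) (max (f 1) (max (f 2) (max (f 3) (max (f 4) (f 5)))))

def WW (B : Finset (Fin 9)) : ℤ := mx (fun k => LL k B)

def GG (a b c : Fin 9) : ℤ := mx (fun k => mm k + (cc k a + (cc k b + cc k c)))

lemma WW_eq_GG (a b c : Fin 9) (hab : a ≠ b) (hac : a ≠ c) (hbc : b ≠ c) :
    WW (insert a (insert b {c})) = GG a b c := by
  unfold WW GG LL
  congr 1
  funext k
  rw [Finset.sum_insert (by simp [hab, hac]), Finset.sum_insert (by simp [hbc]),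
    Finset.sum_singleton]

def Rel3 (x y z : ℤ) : Prop := (x = y ∧ x ≤ z) ∨ (x = z ∧ x ≤ y) ∨ (y = z ∧ y ≤ x)

instance (x y z : ℤ) : Decidable (Rel3 x y z) := by unfold Rel3; infer_instance

def chk4 (s i j k l : Fin 9) : Prop :=
  (i ≠ s ∧ j ≠ s ∧ k ≠ s ∧ l ≠ s ∧ i ≠ j ∧ i ≠ k ∧ i ≠ l ∧ j ≠ k ∧ j ≠ l ∧ k ≠ l) →
    Rel3 (GG i j s + GG k l s) (GG i k s + GG j l s) (GG i l s + GG j k s)

instance (s i j k l : Fin 9) : Decidable (chk4 s i j k l) := by unfold chk4; infer_instance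

lemma plucker_int : ∀ s i j k l : Fin 9, chk4 s i j k l := by
  decide +kernel

end Pool.Agent.Work.MP_2e1090_co
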