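import Pool.Agent.Work.MP_2e1090_co.Basic

set_option autoImplicit false

namespace Pool.Agent.Work.MP_2e1090_co

/-- the valuated matroid -/
noncomputable def w (B : Finset (Fin 9)) : ℝ := (WW B : ℝ)

/-- the cell of `v` selected by `c` -/
def cell (v : Finset (Fin 9) → ℝ) (c : Fin 9 → ℝ) : Set (Finset (Fin 9)) :=
  {B : Finset (Fin 9) | B.card = 3 ∧ ∀ B' : Finset (Fin 9), B'.card = 3 →
    v B - ∑ i ∈ B, c i ≤ v B' - ∑ i ∈ B', c i}

lemma LL_le_WW (k : Fin 6) (B : Finset (Fin 9)) : LL k B ≤ WW B := by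
  unfold WW mx
  fin_cases k <;> simp

lemma exists_LL (B : Finset (Fin 9)) : ∃ k : Fin 6, WW B = LL k B := by
  unfold WW mx
  rcases max_choice (LL 0 B) (max (LL 1 B) (max (LL 2 B) (max (LL 3 B) (max (LL 4 B) (LL 5 B))))) with h | h
  · exact ⟨0, h⟩
  rw [h]
  rcases max_choice (LL 1 B) (max (LL 2 B) (max (LL 3 B) (max (LL 4 B) (LL 5 B)))) with h | h
  · exact ⟨1, h⟩
  rw [h]
  rcases max_choice (LL 2 B) (max (LL 3 B) (max (LL 4 B) (LL 5 B))) with h | h
  · exact ⟨2, h⟩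
  rw [h]
  rcases max_choice (LL 3 B) (max (LL 4 B) (LL 5 B)) with h | h
  · exact ⟨3, h⟩
  rw [h]
  rcases max_choice (LL 4 B) (LL 5 B) with h | h
  · exact ⟨4, h⟩
  · exact ⟨5, h⟩

lemma LL_real (k : Fin 6) (B : Finset (Fin 9)) :
    (LL k B : ℝ) = (mm k : ℝ) + ∑ i ∈ B, (cc k i : ℝ) := by
  unfold LL; push_cast; rfl

/-- affine pieces of `v` -/
lemma pieces (v : Finset (Fin 9) → ℝ)
    (h : ∀ c : Fin 9 → ℝ, ∃ c' : Fin 9 → ℝ, cell w c ⊆ cell v c') (k : Fin 6) :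
    ∃ e : Fin 9 → ℝ, (∀ B : Finset (Fin 9), B.card = 3 → WW B = LL k B → v B = ∑ i ∈ B, e i) ∧
      (∀ B : Finset (Fin 9), B.card = 3 → ∑ i ∈ B, e i ≤ v B) := by
  obtain ⟨c', hc'⟩ := h (fun i => (cc k i : ℝ))
  have hmem : ∀ B : Finset (Fin 9), B.card = 3 → WW B = LL k B →
      B ∈ cell w (fun i => (cc k i : ℝ)) := by
    intro B hB hW
    refine ⟨hB, fun B' _ => ?_⟩
    have h1 : (LL k B' : ℝ) ≤ (WW B' : ℝ) := by exact_mod_cast LL_le_WW k B'
    have h2 : (WW B : ℝ) = (LL k B : ℝ) := by exact_mod_cast hW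
    rw [LL_real] at h1 h2
    simp only [w]
    linarith
  -- a base point
  have hne : ∃ B0 : Finset (Fin 9), B0.card = 3 ∧ WW B0 = LL k B0 := by
    fin_cases k
    · exact ⟨{0,1,2}, by decide +kernel, by decide +kernel⟩
    · exact ⟨{0,1,2}, by decide +kernel, by decide +kernel⟩
    · exact ⟨{0,1,2}, by decide +kernel, by decide +kernel⟩
    · exact ⟨{0,1,2}, by decide +kernel, by decide +kernel⟩
    · exact ⟨{0,1,2}, by decide +kernel, by decide +kernel⟩
    · exact ⟨{0,1,2}, by decide +kernel, by decide +kernel⟩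
  obtain ⟨B0, hB0, hW0⟩ := hne
  have h0 := hc' (hmem B0 hB0 hW0)
  set μ : ℝ := v B0 - ∑ i ∈ B0, c' i with hμ
  have hsum : ∀ B : Finset (Fin 9), B.card = 3 →
      ∑ i ∈ B, (c' i + μ / 3) = (∑ i ∈ B, c' i) + μ := by
    intro B hB
    rw [Finset.sum_add_distrib, Finset.sum_const, hB]
    simp
    ring
  refine ⟨fun i => c' i + μ / 3, ?_, ?_⟩
  · intro B hB hW
    have h1 := hc' (hmem B hB hW)
    have h2 := h0.2 B hB
    have h3 := h1.2 B0 hB0
    rw [hsum B hB]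
    linarith
  · intro B hB
    have h2 := h0.2 B hB
    rw [hsum B hB]
    linarith

lemma sum3 (f : Fin 9 → ℝ) (a b c : Fin 9) (hab : a ≠ b) (hac : a ≠ c) (hbc : b ≠ c) :
    ∑ i ∈ ({a, b, c} : Finset (Fin 9)), f i = f a + f b + f c := by
  rw [Finset.sum_insert (by simp [hab, hac]), Finset.sum_insert (by simp [hbc]),
    Finset.sum_singleton]
  ring

/-- rigidity: any coarsening of the subdivision of `w` is a nonnegative multiple of `w`
up to lineality. -/
lemma rigid (v : Finset (Fin 9) → ℝ)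
    (h : ∀ c : Fin 9 → ℝ, ∃ c' : Fin 9 → ℝ, cell w c ⊆ cell v c') :
    ∃ lam : ℝ, 0 ≤ lam ∧ ∃ a : Fin 9 → ℝ, ∀ B : Finset (Fin 9), B.card = 3 →
      v B = lam * w B + ∑ i ∈ B, a i := by
  have hp := pieces v h
  choose e he1 he2 using hp
  have key : ∀ (k l : Fin 6) (a b c : Fin 9), a ≠ b → a ≠ c → b ≠ c →
      WW {a, b, c} = LL k {a, b, c} → WW {a, b, c} = LL l {a, b, c} →
      e k a + e k b + e k c = e l a + e l b + e l c := by
    intro k l a b c hab hac hbc hk hl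
    have hcard : ({a, b, c} : Finset (Fin 9)).card = 3 := by
      rw [Finset.card_eq_three]; exact ⟨a, b, c, hab, hac, hbc, rfl⟩
    have h1 := he1 k _ hcard hk
    have h2 := he1 l _ hcard hl
    rw [sum3 _ _ _ _ hab hac hbc] at h1 h2
    linarith
  have h0_1_012 : e 0 0 + e 0 1 + e 0 2 = e 1 0 + e 1 1 + e 1 2 := by
    have := key 0 1 0 1 2 (by decide) (by decide) (by decide) (by decide +kernel) (by decide +kernel)
    exact this
  have h0_1_016 : e 0 0 + e 0 1 + e 0 6 = e 1 0 + e 1 1 + e 1 6 := by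
    have := key 0 1 0 1 6 (by decide) (by decide) (by decide) (by decide +kernel) (by decide +kernel)
    exact this
  have h0_1_017 : e 0 0 + e 0 1 + e 0 7 = e 1 0 + e 1 1 + e 1 7 := by
    have := key 0 1 0 1 7 (by decide) (by decide) (by decide) (by decide +kernel) (by decide +kernel)
    exact this
  have h0_1_018 : e 0 0 + e 0 1 + e 0 8 = e 1 0 + e 1 1 + e 1 8 := by
    have := key 0 1 0 1 8 (by decide) (by decide) (by decide) (by decide +kernel) (by decide +kernel)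
    exact this
  have h0_1_023 : e 0 0 + e 0 2 + e 0 3 = e 1 0 + e 1 2 + e 1 3 := by
    have := key 0 1 0 2 3 (by decide) (by decide) (by decide) (by decide +kernel) (by decide +kernel)
    exact this
  have h0_1_024 : e 0 0 + e 0 2 + e 0 4 = e 1 0 + e 1 2 + e 1 4 := by
    have := key 0 1 0 2 4 (by decide) (by decide) (by decide) (by decide +kernel) (by decide +kernel)
    exact this
  have h0_1_025 : e 0 0 + e 0 2 + e 0 5 = e 1 0 + e 1 2 + e 1 5 := by
    have := key 0 1 0 2 5 (by decide) (by decide) (by decide) (by decide +kernel) (by decide +kernel)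
    exact this
  have h0_1_123 : e 0 1 + e 0 2 + e 0 3 = e 1 1 + e 1 2 + e 1 3 := by
    have := key 0 1 1 2 3 (by decide) (by decide) (by decide) (by decide +kernel) (by decide +kernel)
    exact this
  have h0_2_012 : e 0 0 + e 0 1 + e 0 2 = e 2 0 + e 2 1 + e 2 2 := by
    have := key 0 2 0 1 2 (by decide) (by decide) (by decide) (by decide +kernel) (by decide +kernel)
    exact this
  have h0_2_014 : e 0 0 + e 0 1 + e 0 4 = e 2 0 + e 2 1 + e 2 4 := by
    have := key 0 2 0 1 4 (by decide) (by decide) (by decide) (by decide +kernel) (by decide +kernel)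
    exact this
  have h0_2_015 : e 0 0 + e 0 1 + e 0 5 = e 2 0 + e 2 1 + e 2 5 := by
    have := key 0 2 0 1 5 (by decide) (by decide) (by decide) (by decide +kernel) (by decide +kernel)
    exact this
  have h0_2_016 : e 0 0 + e 0 1 + e 0 6 = e 2 0 + e 2 1 + e 2 6 := by
    have := key 0 2 0 1 6 (by decide) (by decide) (by decide) (by decide +kernel) (by decide +kernel)
    exact this
  have h0_2_017 : e 0 0 + e 0 1 + e 0 7 = e 2 0 + e 2 1 + e 2 7 := by
    have := key 0 2 0 1 7 (by decide) (by decide) (by decide) (by decide +kernel) (by decide +kernel)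
    exact this
  have h0_2_018 : e 0 0 + e 0 1 + e 0 8 = e 2 0 + e 2 1 + e 2 8 := by
    have := key 0 2 0 1 8 (by decide) (by decide) (by decide) (by decide +kernel) (by decide +kernel)
    exact this
  have h0_2_024 : e 0 0 + e 0 2 + e 0 4 = e 2 0 + e 2 2 + e 2 4 := by
    have := key 0 2 0 2 4 (by decide) (by decide) (by decide) (by decide +kernel) (by decide +kernel)
    exact this
  have h0_2_123 : e 0 1 + e 0 2 + e 0 3 = e 2 1 + e 2 2 + e 2 3 := by
    have := key 0 2 1 2 3 (by decide) (by decide) (by decide) (by decide +kernel) (by decide +kernel)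
    exact this
  have h0_3_012 : e 0 0 + e 0 1 + e 0 2 = e 3 0 + e 3 1 + e 3 2 := by
    have := key 0 3 0 1 2 (by decide) (by decide) (by decide) (by decide +kernel) (by decide +kernel)
    exact this
  have h0_3_017 : e 0 0 + e 0 1 + e 0 7 = e 3 0 + e 3 1 + e 3 7 := by
    have := key 0 3 0 1 7 (by decide) (by decide) (by decide) (by decide +kernel) (by decide +kernel)
    exact this
  have h0_3_018 : e 0 0 + e 0 1 + e 0 8 = e 3 0 + e 3 1 + e 3 8 := by
    have := key 0 3 0 1 8 (by decide) (by decide) (by decide) (by decide +kernel) (by decide +kernel)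
    exact this
  have h0_3_024 : e 0 0 + e 0 2 + e 0 4 = e 3 0 + e 3 2 + e 3 4 := by
    have := key 0 3 0 2 4 (by decide) (by decide) (by decide) (by decide +kernel) (by decide +kernel)
    exact this
  have h0_3_025 : e 0 0 + e 0 2 + e 0 5 = e 3 0 + e 3 2 + e 3 5 := by
    have := key 0 3 0 2 5 (by decide) (by decide) (by decide) (by decide +kernel) (by decide +kernel)
    exact this
  have h0_3_123 : e 0 1 + e 0 2 + e 0 3 = e 3 1 + e 3 2 + e 3 3 := by
    have := key 0 3 1 2 3 (by decide) (by decide) (by decide) (by decide +kernel) (by decide +kernel)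
    exact this
  have h0_4_012 : e 0 0 + e 0 1 + e 0 2 = e 4 0 + e 4 1 + e 4 2 := by
    have := key 0 4 0 1 2 (by decide) (by decide) (by decide) (by decide +kernel) (by decide +kernel)
    exact this
  have h0_4_015 : e 0 0 + e 0 1 + e 0 5 = e 4 0 + e 4 1 + e 4 5 := by
    have := key 0 4 0 1 5 (by decide) (by decide) (by decide) (by decide +kernel) (by decide +kernel)
    exact this
  have h0_4_017 : e 0 0 + e 0 1 + e 0 7 = e 4 0 + e 4 1 + e 4 7 := by
    have := key 0 4 0 1 7 (by decide) (by decide) (by decide) (by decide +kernel) (by decide +kernel)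
    exact this
  have h0_4_018 : e 0 0 + e 0 1 + e 0 8 = e 4 0 + e 4 1 + e 4 8 := by
    have := key 0 4 0 1 8 (by decide) (by decide) (by decide) (by decide +kernel) (by decide +kernel)
    exact this
  have h0_4_025 : e 0 0 + e 0 2 + e 0 5 = e 4 0 + e 4 2 + e 4 5 := by
    have := key 0 4 0 2 5 (by decide) (by decide) (by decide) (by decide +kernel) (by decide +kernel)
    exact this
  have h0_4_123 : e 0 1 + e 0 2 + e 0 3 = e 4 1 + e 4 2 + e 4 3 := by
    have := key 0 4 1 2 3 (by decide) (by decide) (by decide) (by decide +kernel) (by decide +kernel)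
    exact this
  have h0_5_012 : e 0 0 + e 0 1 + e 0 2 = e 5 0 + e 5 1 + e 5 2 := by
    have := key 0 5 0 1 2 (by decide) (by decide) (by decide) (by decide +kernel) (by decide +kernel)
    exact this
  have h0_5_018 : e 0 0 + e 0 1 + e 0 8 = e 5 0 + e 5 1 + e 5 8 := by
    have := key 0 5 0 1 8 (by decide) (by decide) (by decide) (by decide +kernel) (by decide +kernel)
    exact this
  have h0_5_023 : e 0 0 + e 0 2 + e 0 3 = e 5 0 + e 5 2 + e 5 3 := by
    have := key 0 5 0 2 3 (by decide) (by decide) (by decide) (by decide +kernel) (by decide +kernel)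
    exact this
  have h0_5_024 : e 0 0 + e 0 2 + e 0 4 = e 5 0 + e 5 2 + e 5 4 := by
    have := key 0 5 0 2 4 (by decide) (by decide) (by decide) (by decide +kernel) (by decide +kernel)
    exact this
  have h0_5_025 : e 0 0 + e 0 2 + e 0 5 = e 5 0 + e 5 2 + e 5 5 := by
    have := key 0 5 0 2 5 (by decide) (by decide) (by decide) (by decide +kernel) (by decide +kernel)
    exact this
  have h0_5_123 : e 0 1 + e 0 2 + e 0 3 = e 5 1 + e 5 2 + e 5 3 := by
    have := key 0 5 1 2 3 (by decide) (by decide) (by decide) (by decide +kernel) (by decide +kernel)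
    exact this
  have h1_2_126 : e 1 1 + e 1 2 + e 1 6 = e 2 1 + e 2 2 + e 2 6 := by
    have := key 1 2 1 2 6 (by decide) (by decide) (by decide) (by decide +kernel) (by decide +kernel)
    exact this
  have h1_3_027 : e 1 0 + e 1 2 + e 1 7 = e 3 0 + e 3 2 + e 3 7 := by
    have := key 1 3 0 2 7 (by decide) (by decide) (by decide) (by decide +kernel) (by decide +kernel)
    exact this
  have h1_3_126 : e 1 1 + e 1 2 + e 1 6 = e 3 1 + e 3 2 + e 3 6 := by
    have := key 1 3 1 2 6 (by decide) (by decide) (by decide) (by decide +kernel) (by decide +kernel)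
    exact this
  have h1_4_126 : e 1 1 + e 1 2 + e 1 6 = e 4 1 + e 4 2 + e 4 6 := by
    have := key 1 4 1 2 6 (by decide) (by decide) (by decide) (by decide +kernel) (by decide +kernel)
    exact this
  have h1_5_026 : e 1 0 + e 1 2 + e 1 6 = e 5 0 + e 5 2 + e 5 6 := by
    have := key 1 5 0 2 6 (by decide) (by decide) (by decide) (by decide +kernel) (by decide +kernel)
    exact this
  have h1_5_027 : e 1 0 + e 1 2 + e 1 7 = e 5 0 + e 5 2 + e 5 7 := by
    have := key 1 5 0 2 7 (by decide) (by decide) (by decide) (by decide +kernel) (by decide +kernel)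
    exact this
  have h2_3_124 : e 2 1 + e 2 2 + e 2 4 = e 3 1 + e 3 2 + e 3 4 := by
    have := key 2 3 1 2 4 (by decide) (by decide) (by decide) (by decide +kernel) (by decide +kernel)
    exact this
  have h2_4_124 : e 2 1 + e 2 2 + e 2 4 = e 4 1 + e 4 2 + e 4 4 := by
    have := key 2 4 1 2 4 (by decide) (by decide) (by decide) (by decide +kernel) (by decide +kernel)
    exact this
  have h3_4_127 : e 3 1 + e 3 2 + e 3 7 = e 4 1 + e 4 2 + e 4 7 := by
    have := key 3 4 1 2 7 (by decide) (by decide) (by decide) (by decide +kernel) (by decide +kernel)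
    exact this
  have h3_5_128 : e 3 1 + e 3 2 + e 3 8 = e 5 1 + e 5 2 + e 5 8 := by
    have := key 3 5 1 2 8 (by decide) (by decide) (by decide) (by decide +kernel) (by decide +kernel)
    exact this
  obtain ⟨lam, hlam⟩ : ∃ lam : ℝ, lam = e 1 2 - e 0 2 - e 1 0 + e 0 0 := ⟨_, rfl⟩
  have g1_0 : e 1 0 = e 0 0 + (-1/3) * lam := by
    rw [hlam]; linear_combination (-1/3) * h0_1_012 + (-1/3) * h0_1_023 + (1/3) * h0_1_123
  have g1_1 : e 1 1 = e 0 1 + (-1/3) * lam := by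
    rw [hlam]; linear_combination (-1/3) * h0_1_012 + (2/3) * h0_1_023 + (-2/3) * h0_1_123
  have g1_2 : e 1 2 = e 0 2 + (2/3) * lam := by
    rw [hlam]; linear_combination (-1/3) * h0_1_012 + (-1/3) * h0_1_023 + (1/3) * h0_1_123
  have g1_3 : e 1 3 = e 0 3 + (-1/3) * lam := by
    rw [hlam]; linear_combination (2/3) * h0_1_012 + (-1/3) * h0_1_023 + (-2/3) * h0_1_123
  have g1_4 : e 1 4 = e 0 4 + (-1/3) * lam := by
    rw [hlam]; linear_combination (2/3) * h0_1_012 + (2/3) * h0_1_023 + (-1) * h0_1_024 + (-2/3) * h0_1_123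
  have g1_5 : e 1 5 = e 0 5 + (-1/3) * lam := by
    rw [hlam]; linear_combination (2/3) * h0_1_012 + (2/3) * h0_1_023 + (-1) * h0_1_025 + (-2/3) * h0_1_123
  have g1_6 : e 1 6 = e 0 6 + (2/3) * lam := by
    rw [hlam]; linear_combination (2/3) * h0_1_012 + (-1) * h0_1_016 + (-1/3) * h0_1_023 + (1/3) * h0_1_123
  have g1_7 : e 1 7 = e 0 7 + (2/3) * lam := by
    rw [hlam]; linear_combination (2/3) * h0_1_012 + (-1) * h0_1_017 + (-1/3) * h0_1_023 + (1/3) * h0_1_123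
  have g1_8 : e 1 8 = e 0 8 + (2/3) * lam := by
    rw [hlam]; linear_combination (2/3) * h0_1_012 + (-1) * h0_1_018 + (-1/3) * h0_1_023 + (1/3) * h0_1_123
  have g2_0 : e 2 0 = e 0 0 + (-2/3) * lam := by
    rw [hlam]; linear_combination (2/3) * h0_1_016 + (-1/3) * h0_2_012 + (1/3) * h0_2_014 + (-2/3) * h0_2_016 + (-1/3) * h0_2_024 + (2/3) * h1_2_126
  have g2_1 : e 2 1 = e 0 1 + (1/3) * lam := by
    rw [hlam]; linear_combination (-1/3) * h0_1_016 + (-1/3) * h0_2_012 + (-2/3) * h0_2_014 + (1/3) * h0_2_016 + (2/3) * h0_2_024 + (-1/3) * h1_2_126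
  have g2_2 : e 2 2 = e 0 2 + (1/3) * lam := by
    rw [hlam]; linear_combination (-1/3) * h0_1_016 + (-1/3) * h0_2_012 + (1/3) * h0_2_014 + (1/3) * h0_2_016 + (-1/3) * h0_2_024 + (-1/3) * h1_2_126
  have g2_3 : e 2 3 = e 0 3 + (-2/3) * lam := by
    rw [hlam]; linear_combination (2/3) * h0_1_016 + (2/3) * h0_2_012 + (1/3) * h0_2_014 + (-2/3) * h0_2_016 + (-1/3) * h0_2_024 + (-1) * h0_2_123 + (2/3) * h1_2_126
  have g2_4 : e 2 4 = e 0 4 + (1/3) * lam := by
    rw [hlam]; linear_combination (-1/3) * h0_1_016 + (2/3) * h0_2_012 + (-2/3) * h0_2_014 + (1/3) * h0_2_016 + (-1/3) * h0_2_024 + (-1/3) * h1_2_126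
  have g2_5 : e 2 5 = e 0 5 + (1/3) * lam := by
    rw [hlam]; linear_combination (-1/3) * h0_1_016 + (2/3) * h0_2_012 + (1/3) * h0_2_014 + (-1) * h0_2_015 + (1/3) * h0_2_016 + (-1/3) * h0_2_024 + (-1/3) * h1_2_126
  have g2_6 : e 2 6 = e 0 6 + (1/3) * lam := by
    rw [hlam]; linear_combination (-1/3) * h0_1_016 + (2/3) * h0_2_012 + (1/3) * h0_2_014 + (-2/3) * h0_2_016 + (-1/3) * h0_2_024 + (-1/3) * h1_2_126
  have g2_7 : e 2 7 = e 0 7 + (1/3) * lam := by
    rw [hlam]; linear_combination (-1/3) * h0_1_016 + (2/3) * h0_2_012 + (1/3) * h0_2_014 + (1/3) * h0_2_016 + (-1) * h0_2_017 + (-1/3) * h0_2_024 + (-1/3) * h1_2_126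
  have g2_8 : e 2 8 = e 0 8 + (1/3) * lam := by
    rw [hlam]; linear_combination (-1/3) * h0_1_016 + (2/3) * h0_2_012 + (1/3) * h0_2_014 + (1/3) * h0_2_016 + (-1) * h0_2_018 + (-1/3) * h0_2_024 + (-1/3) * h1_2_126
  have g3_0 : e 3 0 = e 0 0 + (-1) * lam := by
    rw [hlam]; linear_combination (2/3) * h0_1_016 + (1/3) * h0_1_017 + (1/3) * h0_1_023 + (-1/3) * h0_1_123 + (2/3) * h0_2_014 + (-2/3) * h0_2_016 + (-1/3) * h0_3_012 + (-1/3) * h0_3_017 + (-2/3) * h0_3_024 + (2/3) * h1_2_126 + (1/3) * h1_3_027 + (2/3) * h2_3_124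
  have g3_1 : e 3 1 = e 0 1 + (0) * lam := by
    rw [hlam]; linear_combination (-1/3) * h0_1_016 + (1/3) * h0_1_017 + (1/3) * h0_1_023 + (-1/3) * h0_1_123 + (-1/3) * h0_2_014 + (1/3) * h0_2_016 + (-1/3) * h0_3_012 + (-1/3) * h0_3_017 + (1/3) * h0_3_024 + (-1/3) * h1_2_126 + (1/3) * h1_3_027 + (-1/3) * h2_3_124
  have g3_2 : e 3 2 = e 0 2 + (1) * lam := by
    rw [hlam]; linear_combination (-1/3) * h0_1_016 + (-2/3) * h0_1_017 + (-2/3) * h0_1_023 + (2/3) * h0_1_123 + (-1/3) * h0_2_014 + (1/3) * h0_2_016 + (-1/3) * h0_3_012 + (2/3) * h0_3_017 + (1/3) * h0_3_024 + (-1/3) * h1_2_126 + (-2/3) * h1_3_027 + (-1/3) * h2_3_124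
  have g3_3 : e 3 3 = e 0 3 + (-1) * lam := by
    rw [hlam]; linear_combination (2/3) * h0_1_016 + (1/3) * h0_1_017 + (1/3) * h0_1_023 + (-1/3) * h0_1_123 + (2/3) * h0_2_014 + (-2/3) * h0_2_016 + (2/3) * h0_3_012 + (-1/3) * h0_3_017 + (-2/3) * h0_3_024 + (-1) * h0_3_123 + (2/3) * h1_2_126 + (1/3) * h1_3_027 + (2/3) * h2_3_124
  have g3_4 : e 3 4 = e 0 4 + (0) * lam := by
    rw [hlam]; linear_combination (-1/3) * h0_1_016 + (1/3) * h0_1_017 + (1/3) * h0_1_023 + (-1/3) * h0_1_123 + (-1/3) * h0_2_014 + (1/3) * h0_2_016 + (2/3) * h0_3_012 + (-1/3) * h0_3_017 + (-2/3) * h0_3_024 + (-1/3) * h1_2_126 + (1/3) * h1_3_027 + (-1/3) * h2_3_124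
  have g3_5 : e 3 5 = e 0 5 + (0) * lam := by
    rw [hlam]; linear_combination (-1/3) * h0_1_016 + (1/3) * h0_1_017 + (1/3) * h0_1_023 + (-1/3) * h0_1_123 + (-1/3) * h0_2_014 + (1/3) * h0_2_016 + (2/3) * h0_3_012 + (-1/3) * h0_3_017 + (1/3) * h0_3_024 + (-1) * h0_3_025 + (-1/3) * h1_2_126 + (1/3) * h1_3_027 + (-1/3) * h2_3_124
  have g3_6 : e 3 6 = e 0 6 + (0) * lam := by
    rw [hlam]; linear_combination (-1/3) * h0_1_016 + (1/3) * h0_1_017 + (1/3) * h0_1_023 + (-1/3) * h0_1_123 + (2/3) * h0_2_014 + (-2/3) * h0_2_016 + (2/3) * h0_3_012 + (-1/3) * h0_3_017 + (-2/3) * h0_3_024 + (2/3) * h1_2_126 + (1/3) * h1_3_027 + (-1) * h1_3_126 + (2/3) * h2_3_124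
  have g3_7 : e 3 7 = e 0 7 + (1) * lam := by
    rw [hlam]; linear_combination (-1/3) * h0_1_016 + (-2/3) * h0_1_017 + (-2/3) * h0_1_023 + (2/3) * h0_1_123 + (-1/3) * h0_2_014 + (1/3) * h0_2_016 + (2/3) * h0_3_012 + (-1/3) * h0_3_017 + (1/3) * h0_3_024 + (-1/3) * h1_2_126 + (-2/3) * h1_3_027 + (-1/3) * h2_3_124
  have g3_8 : e 3 8 = e 0 8 + (1) * lam := by
    rw [hlam]; linear_combination (-1/3) * h0_1_016 + (-2/3) * h0_1_017 + (-2/3) * h0_1_023 + (2/3) * h0_1_123 + (-1/3) * h0_2_014 + (1/3) * h0_2_016 + (2/3) * h0_3_012 + (2/3) * h0_3_017 + (-1) * h0_3_018 + (1/3) * h0_3_024 + (-1/3) * h1_2_126 + (-2/3) * h1_3_027 + (-1/3) * h2_3_124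
  have g4_0 : e 4 0 = e 0 0 + (-4/3) * lam := by
    rw [hlam]; linear_combination (2/3) * h0_1_016 + (2/3) * h0_1_017 + (2/3) * h0_1_023 + (-2/3) * h0_1_123 + (2/3) * h0_2_014 + (-2/3) * h0_2_016 + (-2/3) * h0_3_024 + (-1/3) * h0_4_012 + (1/3) * h0_4_015 + (-2/3) * h0_4_017 + (-1/3) * h0_4_025 + (2/3) * h1_2_126 + (2/3) * h1_3_027 + (2/3) * h2_3_124 + (2/3) * h3_4_127
  have g4_1 : e 4 1 = e 0 1 + (2/3) * lam := by
    rw [hlam]; linear_combination (-1/3) * h0_1_016 + (-1/3) * h0_1_017 + (-1/3) * h0_1_023 + (1/3) * h0_1_123 + (-1/3) * h0_2_014 + (1/3) * h0_2_016 + (1/3) * h0_3_024 + (-1/3) * h0_4_012 + (-2/3) * h0_4_015 + (1/3) * h0_4_017 + (2/3) * h0_4_025 + (-1/3) * h1_2_126 + (-1/3) * h1_3_027 + (-1/3) * h2_3_124 + (-1/3) * h3_4_127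
  have g4_2 : e 4 2 = e 0 2 + (2/3) * lam := by
    rw [hlam]; linear_combination (-1/3) * h0_1_016 + (-1/3) * h0_1_017 + (-1/3) * h0_1_023 + (1/3) * h0_1_123 + (-1/3) * h0_2_014 + (1/3) * h0_2_016 + (1/3) * h0_3_024 + (-1/3) * h0_4_012 + (1/3) * h0_4_015 + (1/3) * h0_4_017 + (-1/3) * h0_4_025 + (-1/3) * h1_2_126 + (-1/3) * h1_3_027 + (-1/3) * h2_3_124 + (-1/3) * h3_4_127
  have g4_3 : e 4 3 = e 0 3 + (-4/3) * lam := by
    rw [hlam]; linear_combination (2/3) * h0_1_016 + (2/3) * h0_1_017 + (2/3) * h0_1_023 + (-2/3) * h0_1_123 + (2/3) * h0_2_014 + (-2/3) * h0_2_016 + (-2/3) * h0_3_024 + (2/3) * h0_4_012 + (1/3) * h0_4_015 + (-2/3) * h0_4_017 + (-1/3) * h0_4_025 + (-1) * h0_4_123 + (2/3) * h1_2_126 + (2/3) * h1_3_027 + (2/3) * h2_3_124 + (2/3) * h3_4_127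
  have g4_4 : e 4 4 = e 0 4 + (-1/3) * lam := by
    rw [hlam]; linear_combination (-1/3) * h0_1_016 + (2/3) * h0_1_017 + (2/3) * h0_1_023 + (-2/3) * h0_1_123 + (-1/3) * h0_2_014 + (1/3) * h0_2_016 + (-2/3) * h0_3_024 + (2/3) * h0_4_012 + (1/3) * h0_4_015 + (-2/3) * h0_4_017 + (-1/3) * h0_4_025 + (-1/3) * h1_2_126 + (2/3) * h1_3_027 + (2/3) * h2_3_124 + (-1) * h2_4_124 + (2/3) * h3_4_127
  have g4_5 : e 4 5 = e 0 5 + (2/3) * lam := by
    rw [hlam]; linear_combination (-1/3) * h0_1_016 + (-1/3) * h0_1_017 + (-1/3) * h0_1_023 + (1/3) * h0_1_123 + (-1/3) * h0_2_014 + (1/3) * h0_2_016 + (1/3) * h0_3_024 + (2/3) * h0_4_012 + (-2/3) * h0_4_015 + (1/3) * h0_4_017 + (-1/3) * h0_4_025 + (-1/3) * h1_2_126 + (-1/3) * h1_3_027 + (-1/3) * h2_3_124 + (-1/3) * h3_4_127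
  have g4_6 : e 4 6 = e 0 6 + (-1/3) * lam := by
    rw [hlam]; linear_combination (-1/3) * h0_1_016 + (2/3) * h0_1_017 + (2/3) * h0_1_023 + (-2/3) * h0_1_123 + (2/3) * h0_2_014 + (-2/3) * h0_2_016 + (-2/3) * h0_3_024 + (2/3) * h0_4_012 + (1/3) * h0_4_015 + (-2/3) * h0_4_017 + (-1/3) * h0_4_025 + (2/3) * h1_2_126 + (2/3) * h1_3_027 + (-1) * h1_4_126 + (2/3) * h2_3_124 + (2/3) * h3_4_127
  have g4_7 : e 4 7 = e 0 7 + (2/3) * lam := by
    rw [hlam]; linear_combination (-1/3) * h0_1_016 + (-1/3) * h0_1_017 + (-1/3) * h0_1_023 + (1/3) * h0_1_123 + (-1/3) * h0_2_014 + (1/3) * h0_2_016 + (1/3) * h0_3_024 + (2/3) * h0_4_012 + (1/3) * h0_4_015 + (-2/3) * h0_4_017 + (-1/3) * h0_4_025 + (-1/3) * h1_2_126 + (-1/3) * h1_3_027 + (-1/3) * h2_3_124 + (-1/3) * h3_4_127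
  have g4_8 : e 4 8 = e 0 8 + (2/3) * lam := by
    rw [hlam]; linear_combination (-1/3) * h0_1_016 + (-1/3) * h0_1_017 + (-1/3) * h0_1_023 + (1/3) * h0_1_123 + (-1/3) * h0_2_014 + (1/3) * h0_2_016 + (1/3) * h0_3_024 + (2/3) * h0_4_012 + (1/3) * h0_4_015 + (1/3) * h0_4_017 + (-1) * h0_4_018 + (-1/3) * h0_4_025 + (-1/3) * h1_2_126 + (-1/3) * h1_3_027 + (-1/3) * h2_3_124 + (-1/3) * h3_4_127
  have g5_0 : e 5 0 = e 0 0 + (-2/3) * lam := by
    rw [hlam]; linear_combination (1/3) * h0_1_016 + (1/3) * h0_1_017 + (1/3) * h0_1_023 + (-1/3) * h0_1_123 + (1/3) * h0_2_014 + (-1/3) * h0_2_016 + (-1/3) * h0_3_017 + (1/3) * h0_3_018 + (-1/3) * h0_3_024 + (-1/3) * h0_5_012 + (-1/3) * h0_5_018 + (-1/3) * h0_5_023 + (1/3) * h0_5_123 + (1/3) * h1_2_126 + (1/3) * h1_3_027 + (1/3) * h2_3_124 + (1/3) * h3_5_128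
  have g5_1 : e 5 1 = e 0 1 + (-2/3) * lam := by
    rw [hlam]; linear_combination (1/3) * h0_1_016 + (1/3) * h0_1_017 + (1/3) * h0_1_023 + (-1/3) * h0_1_123 + (1/3) * h0_2_014 + (-1/3) * h0_2_016 + (-1/3) * h0_3_017 + (1/3) * h0_3_018 + (-1/3) * h0_3_024 + (-1/3) * h0_5_012 + (-1/3) * h0_5_018 + (2/3) * h0_5_023 + (-2/3) * h0_5_123 + (1/3) * h1_2_126 + (1/3) * h1_3_027 + (1/3) * h2_3_124 + (1/3) * h3_5_128
  have g5_2 : e 5 2 = e 0 2 + (4/3) * lam := by
    rw [hlam]; linear_combination (-2/3) * h0_1_016 + (-2/3) * h0_1_017 + (-2/3) * h0_1_023 + (2/3) * h0_1_123 + (-2/3) * h0_2_014 + (2/3) * h0_2_016 + (2/3) * h0_3_017 + (-2/3) * h0_3_018 + (2/3) * h0_3_024 + (-1/3) * h0_5_012 + (2/3) * h0_5_018 + (-1/3) * h0_5_023 + (1/3) * h0_5_123 + (-2/3) * h1_2_126 + (-2/3) * h1_3_027 + (-2/3) * h2_3_124 + (-2/3) * h3_5_128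
  have g5_3 : e 5 3 = e 0 3 + (-2/3) * lam := by
    rw [hlam]; linear_combination (1/3) * h0_1_016 + (1/3) * h0_1_017 + (1/3) * h0_1_023 + (-1/3) * h0_1_123 + (1/3) * h0_2_014 + (-1/3) * h0_2_016 + (-1/3) * h0_3_017 + (1/3) * h0_3_018 + (-1/3) * h0_3_024 + (2/3) * h0_5_012 + (-1/3) * h0_5_018 + (-1/3) * h0_5_023 + (-2/3) * h0_5_123 + (1/3) * h1_2_126 + (1/3) * h1_3_027 + (1/3) * h2_3_124 + (1/3) * h3_5_128
  have g5_4 : e 5 4 = e 0 4 + (-2/3) * lam := by
    rw [hlam]; linear_combination (1/3) * h0_1_016 + (1/3) * h0_1_017 + (1/3) * h0_1_023 + (-1/3) * h0_1_123 + (1/3) * h0_2_014 + (-1/3) * h0_2_016 + (-1/3) * h0_3_017 + (1/3) * h0_3_018 + (-1/3) * h0_3_024 + (2/3) * h0_5_012 + (-1/3) * h0_5_018 + (2/3) * h0_5_023 + (-1) * h0_5_024 + (-2/3) * h0_5_123 + (1/3) * h1_2_126 + (1/3) * h1_3_027 + (1/3) * h2_3_124 + (1/3) * h3_5_128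
  have g5_5 : e 5 5 = e 0 5 + (-2/3) * lam := by
    rw [hlam]; linear_combination (1/3) * h0_1_016 + (1/3) * h0_1_017 + (1/3) * h0_1_023 + (-1/3) * h0_1_123 + (1/3) * h0_2_014 + (-1/3) * h0_2_016 + (-1/3) * h0_3_017 + (1/3) * h0_3_018 + (-1/3) * h0_3_024 + (2/3) * h0_5_012 + (-1/3) * h0_5_018 + (2/3) * h0_5_023 + (-1) * h0_5_025 + (-2/3) * h0_5_123 + (1/3) * h1_2_126 + (1/3) * h1_3_027 + (1/3) * h2_3_124 + (1/3) * h3_5_128
  have g5_6 : e 5 6 = e 0 6 + (1/3) * lam := by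
    rw [hlam]; linear_combination (-2/3) * h0_1_016 + (1/3) * h0_1_017 + (-2/3) * h0_1_023 + (2/3) * h0_1_123 + (1/3) * h0_2_014 + (-1/3) * h0_2_016 + (-1/3) * h0_3_017 + (1/3) * h0_3_018 + (-1/3) * h0_3_024 + (2/3) * h0_5_012 + (-1/3) * h0_5_018 + (2/3) * h0_5_023 + (-2/3) * h0_5_123 + (1/3) * h1_2_126 + (1/3) * h1_3_027 + (-1) * h1_5_026 + (1/3) * h2_3_124 + (1/3) * h3_5_128
  have g5_7 : e 5 7 = e 0 7 + (1/3) * lam := by
    rw [hlam]; linear_combination (1/3) * h0_1_016 + (-2/3) * h0_1_017 + (-2/3) * h0_1_023 + (2/3) * h0_1_123 + (1/3) * h0_2_014 + (-1/3) * h0_2_016 + (-1/3) * h0_3_017 + (1/3) * h0_3_018 + (-1/3) * h0_3_024 + (2/3) * h0_5_012 + (-1/3) * h0_5_018 + (2/3) * h0_5_023 + (-2/3) * h0_5_123 + (1/3) * h1_2_126 + (1/3) * h1_3_027 + (-1) * h1_5_027 + (1/3) * h2_3_124 + (1/3) * h3_5_128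
  have g5_8 : e 5 8 = e 0 8 + (4/3) * lam := by
    rw [hlam]; linear_combination (-2/3) * h0_1_016 + (-2/3) * h0_1_017 + (-2/3) * h0_1_023 + (2/3) * h0_1_123 + (-2/3) * h0_2_014 + (2/3) * h0_2_016 + (2/3) * h0_3_017 + (-2/3) * h0_3_018 + (2/3) * h0_3_024 + (2/3) * h0_5_012 + (-1/3) * h0_5_018 + (-1/3) * h0_5_023 + (1/3) * h0_5_123 + (-2/3) * h1_2_126 + (-2/3) * h1_3_027 + (-2/3) * h2_3_124 + (-2/3) * h3_5_128

  -- nonnegativity
  have hpos : 0 ≤ lam := by
    have h1 := he2 0 {2, 6, 7} (by decide)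
    have h2 := he1 1 {2, 6, 7} (by decide) (by decide +kernel)
    rw [sum3 _ _ _ _ (by decide) (by decide) (by decide)] at h1 h2
    rw [h2, g1_2, g1_6, g1_7] at h1
    linarith
  refine ⟨lam, hpos, e 0, ?_⟩
  have hall : ∀ (k : Fin 6) (i : Fin 9), e k i = e 0 i + lam * ((cc k i : ℝ) + (mm k : ℝ) / 3) := by
    intro k i
    fin_cases k
    · fin_cases i <;> simp [cc, mm]
    · fin_cases i
      · simp [cc, mm, g1_0]; try ring
      · simp [cc, mm, g1_1]; try ring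
      · simp [cc, mm, g1_2]; try ring
      · simp [cc, mm, g1_3]; try ring
      · simp [cc, mm, g1_4]; try ring
      · simp [cc, mm, g1_5]; try ring
      · simp [cc, mm, g1_6]; try ring
      · simp [cc, mm, g1_7]; try ring
      · simp [cc, mm, g1_8]; try ring
    · fin_cases i
      · simp [cc, mm, g2_0]; try ring
      · simp [cc, mm, g2_1]; try ring
      · simp [cc, mm, g2_2]; try ring
      · simp [cc, mm, g2_3]; try ring
      · simp [cc, mm, g2_4]; try ring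
      · simp [cc, mm, g2_5]; try ring
      · simp [cc, mm, g2_6]; try ring
      · simp [cc, mm, g2_7]; try ring
      · simp [cc, mm, g2_8]; try ring
    · fin_cases i
      · simp [cc, mm, g3_0]; try ring
      · simp [cc, mm, g3_1]; try ring
      · simp [cc, mm, g3_2]; try ring
      · simp [cc, mm, g3_3]; try ring
      · simp [cc, mm, g3_4]; try ring
      · simp [cc, mm, g3_5]; try ring
      · simp [cc, mm, g3_6]; try ring
      · simp [cc, mm, g3_7]; try ring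
      · simp [cc, mm, g3_8]; try ring
    · fin_cases i
      · simp [cc, mm, g4_0]; try ring
      · simp [cc, mm, g4_1]; try ring
      · simp [cc, mm, g4_2]; try ring
      · simp [cc, mm, g4_3]; try ring
      · simp [cc, mm, g4_4]; try ring
      · simp [cc, mm, g4_5]; try ring
      · simp [cc, mm, g4_6]; try ring
      · simp [cc, mm, g4_7]; try ring
      · simp [cc, mm, g4_8]; try ring
    · fin_cases i
      · simp [cc, mm, g5_0]; try ring
      · simp [cc, mm, g5_1]; try ring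
      · simp [cc, mm, g5_2]; try ring
      · simp [cc, mm, g5_3]; try ring
      · simp [cc, mm, g5_4]; try ring
      · simp [cc, mm, g5_5]; try ring
      · simp [cc, mm, g5_6]; try ring
      · simp [cc, mm, g5_7]; try ring
      · simp [cc, mm, g5_8]; try ring
  intro B hB
  obtain ⟨k, hk⟩ := exists_LL B
  rw [he1 k B hB hk]
  have hw : w B = (mm k : ℝ) + ∑ i ∈ B, (cc k i : ℝ) := by
    rw [← LL_real, w, hk]
  rw [hw, Finset.sum_congr rfl (fun i _ => hall k i), Finset.sum_add_distrib, ← Finset.mul_sum,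
    Finset.sum_add_distrib, Finset.sum_const, hB]
  simp
  ring

end Pool.Agent.Work.MP_2e1090_co
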